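import Pool.Agent.Helper42.FR.Stmts

/-!
# The recursion for the ranks
-/

set_option autoImplicit false

namespace Pool.Agent.Helper49.FR

open Matrix Pool.Agent.Helper42.FR

universe u

section
variable {F : Type u} [Field F] {b : ℕ}

theorem ae_mono {d d' : ℕ} {X Y : Matrix (Fin b) (Fin b) F} (h : AE d X Y) (hd : d ≤ d') :
    AE d' X Y := le_trans h hd

theorem ae_symm {d : ℕ} {X Y : Matrix (Fin b) (Fin b) F} (h : AE d X Y) : AE d Y X := by
  unfold AE at *
  have e1 : Y - X = (X - Y) * (-1 : Matrix (Fin b) (Fin b) F) := by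
    rw [mul_neg, mul_one, neg_sub]
  rw [e1]
  exact (rank_mul_le_left _ _).trans h

theorem ae_trans {c d : ℕ} {X Y Z : Matrix (Fin b) (Fin b) F} (h : AE c X Y) (h' : AE d Y Z) :
    AE (c + d) X Z := by
  unfold AE at *
  have e1 : X - Z = (X - Y) + (Y - Z) := by abel
  rw [e1]
  exact (Helper81.Fmr.rank_add_le' _ _).trans (Nat.add_le_add h h')

theorem ae_left {d : ℕ} {X Y : Matrix (Fin b) (Fin b) F} (A : Matrix (Fin b) (Fin b) F)
    (h : AE d X Y) : AE d (A * X) (A * Y) := by
  unfold AE at *
  rw [← mul_sub]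
  exact (rank_mul_le_right _ _).trans h

theorem ae_right {d : ℕ} {X Y : Matrix (Fin b) (Fin b) F} (A : Matrix (Fin b) (Fin b) F)
    (h : AE d X Y) : AE d (X * A) (Y * A) := by
  unfold AE at *
  rw [← sub_mul]
  exact (rank_mul_le_left _ _).trans h

theorem ae_rank {d : ℕ} {X Y : Matrix (Fin b) (Fin b) F} (h : AE d X Y) :
    X.rank ≤ Y.rank + d := by
  unfold AE at h
  have e1 : X = Y + (X - Y) := by abel
  calc X.rank = (Y + (X - Y)).rank := by rw [← e1]
    _ ≤ Y.rank + (X - Y).rank := Helper81.Fmr.rank_add_le' _ _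
    _ ≤ _ := by omega

/-- the inverse commutes too -/
theorem comm_inv {a d : ℕ} {h h' f : Matrix (Fin b) (Fin b) F} (hf : AE a (h * f) (f * h))
    (h1 : AE d (h * h') 1) (h2 : AE d (h' * h) 1) : AE (a + 2 * d) (h' * f) (f * h') := by
  have s1 : AE d (h' * f) (h' * f * (h * h')) := by
    have := ae_left (h' * f) (ae_symm h1)
    rwa [mul_one] at this
  have s2 : AE a (h' * f * (h * h')) (h' * (h * f) * h') := by
    have := ae_right h' (ae_left h' (ae_symm hf))
    simpa only [mul_assoc] using this
  have s3 : AE d (h' * (h * f) * h') (f * h') := by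
    have := ae_right (f * h') h2
    simpa only [mul_assoc, one_mul] using this
  exact ae_mono (ae_trans s1 (ae_trans s2 s3)) (by omega)

theorem conj_comm {a p q : ℕ} {h h' X f : Matrix (Fin b) (Fin b) F}
    (hX : AE a (X * f) (f * X)) (h1 : AE p (h * f) (f * h)) (h2 : AE q (h' * f) (f * h')) :
    AE (a + p + q) (h * X * h' * f) (f * (h * X * h')) := by
  have s1 : AE q (h * X * h' * f) (h * X * (f * h')) := by
    have := ae_left (h * X) h2
    simpa only [mul_assoc] using this
  have s2 : AE a (h * X * (f * h')) (h * (f * X) * h') := by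
    have := ae_right h' (ae_left h hX)
    simpa only [mul_assoc] using this
  have s3 : AE p (h * (f * X) * h') (f * (h * X * h')) := by
    have := ae_right (X * h') h1
    simpa only [mul_assoc] using this
  exact ae_mono (ae_trans s1 (ae_trans s2 s3)) (by omega)

theorem conj_idem {a d : ℕ} {h h' X : Matrix (Fin b) (Fin b) F}
    (hX : AE a (X * X) X) (h2 : AE d (h' * h) 1) :
    AE (a + d) (h * X * h' * (h * X * h')) (h * X * h') := by
  have s1 : AE d (h * X * h' * (h * X * h')) (h * X * (X * h')) := by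
    have := ae_right (X * h') (ae_left (h * X) h2)
    simpa only [mul_assoc, one_mul] using this
  have s2 : AE a (h * X * (X * h')) (h * X * h') := by
    have := ae_right h' (ae_left h hX)
    simpa only [mul_assoc] using this
  exact ae_mono (ae_trans s1 s2) (by omega)

/-- conjugation does not change the rank much -/
theorem conj_rank {d : ℕ} {h h' : Matrix (Fin b) (Fin b) F} (h2 : AE d (h' * h) 1)
    (X : Matrix (Fin b) (Fin b) F) :
    (h * X * h').rank ≤ X.rank ∧ X.rank ≤ (h * X * h').rank + 2 * d := by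
  refine ⟨(rank_mul_le_left _ _).trans (rank_mul_le_right _ _), ?_⟩
  have s1 : AE d X (h' * h * X) := by
    have := ae_right X (ae_symm h2)
    rwa [one_mul] at this
  have s2 : AE d (h' * h * X) (h' * h * X * (h' * h)) := by
    have := ae_left (h' * h * X) (ae_symm h2)
    rwa [mul_one] at this
  have s3 := ae_rank (ae_trans s1 s2)
  have e1 : h' * h * X * (h' * h) = h' * (h * X * h') * h := by simp only [mul_assoc]
  rw [e1] at s3
  have s4 : (h' * (h * X * h') * h).rank ≤ (h * X * h').rank :=
    (rank_mul_le_left _ _).trans (rank_mul_le_right _ _)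
  omega

theorem conj_rank' {d q : ℕ} {h h' f : Matrix (Fin b) (Fin b) F} (h2 : AE d (h' * h) 1)
    (hf : AE q (h' * f) (f * h')) (X : Matrix (Fin b) (Fin b) F) :
    (h * X * h' * f).rank ≤ (X * f).rank + q ∧
      (X * f).rank ≤ (h * X * h' * f).rank + (q + 2 * d) := by
  have s1 : AE q (h * X * h' * f) (h * (X * f) * h') := by
    have := ae_left (h * X) hf
    simpa only [mul_assoc] using this
  have s2 := conj_rank h2 (X * f)
  have s3 := ae_rank s1
  have s4 := ae_rank (ae_symm s1)
  constructor <;> omega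

end

theorem st_RC (F : Type u) [Field F] (h1 : ST_FN F) (h2 : ST_OR F) : ST_RC F := by
  obtain ⟨C1, hC1⟩ := h1
  obtain ⟨C2, hC2⟩ := h2
  refine ⟨C2 * (10 * C1 + 30) + 5 * (5 * C1 + 30), ?_⟩
  intro b d s s' t t' h h' k e R n
  obtain ⟨f1, f2, f3, f4, f5⟩ := hC1 b d s s' t t' h h' k e R n
  set f := fn s s' e n with hf
  obtain ⟨N, hN⟩ : ∃ N : ℕ, N = 3 ^ n * d := ⟨_, rfl⟩
  have hdN : d ≤ N := by
    rw [hN]
    exact Nat.le_mul_of_pos_left d (by positivity)
  have eN : C1 * 3 ^ n * d = C1 * N := by rw [hN]; ring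
  rw [eN] at f1 f2 f3 f4 f5
  have hh : AE N (h * h') 1 := ae_mono R.hh hdN
  have hh' : AE N (h' * h) 1 := ae_mono R.hh' hdN
  have ss : AE N (s * s') 1 := ae_mono R.ss hdN
  have ss' : AE N (s' * s) 1 := ae_mono R.ss' hdN
  have ee : AE N (e * e) e := ae_mono R.ee hdN
  have ee1 : AE N (e * (s * e * s')) (s * e * s' * e) := ae_mono R.ee1 hdN
  -- the inverse of `h`
  have f1' : AE (C1 * N + 2 * N) (h' * f) (f * h') := comm_inv f1 hh hh'
  -- `g = s' e s`
  have gg : AE (2 * N) (s' * e * s * (s' * e * s)) (s' * e * s) :=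
    ae_mono (conj_idem ee ss) (by omega)
  have eg : AE (5 * N) (e * (s' * e * s)) (s' * e * s * e) := by
    have t1 : AE N (e * (s' * e * s)) (s' * s * (e * (s' * e * s))) := by
      have := ae_right (e * (s' * e * s)) (ae_symm ss')
      rwa [one_mul] at this
    have t2 : AE N (s' * s * (e * (s' * e * s))) (s' * (e * (s * e * s')) * s) := by
      have := ae_right s (ae_left s' (ae_symm ee1))
      simpa only [mul_assoc] using this
    have t3 : AE N (s' * (e * (s * e * s')) * s) (s' * e * s * e) := by
      have := ae_left (s' * e * s * e) ss'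
      rw [mul_one] at this
      simpa only [mul_assoc] using this
    exact ae_mono (ae_trans t1 (ae_trans t2 t3)) (by omega)
  set g := s' * e * s with hg
  have xx : AE (8 * N) (e * g * (e * g)) (e * g) := by
    have t1 : AE (5 * N) (e * g * (e * g)) (e * (e * g) * g) := by
      have := ae_right g (ae_left e (ae_symm eg))
      simpa only [mul_assoc] using this
    have t2 : AE N (e * (e * g) * g) (e * (g * g)) := by
      have := ae_right (g * g) ee
      simpa only [mul_assoc] using this
    have t3 : AE (2 * N) (e * (g * g)) (e * g) := ae_left e gg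
    exact ae_mono (ae_trans t1 (ae_trans t2 t3)) (by omega)
  have xf : AE (2 * (C1 * N)) (e * g * f) (f * (e * g)) := by
    have t1 : AE (C1 * N) (e * g * f) (e * f * g) := by
      have := ae_left e f3
      simpa only [mul_assoc] using this
    have t2 : AE (C1 * N) (e * f * g) (f * (e * g)) := by
      have := ae_right g f2
      simpa only [mul_assoc] using this
    exact ae_mono (ae_trans t1 t2) (by omega)
  -- conjugates by `h`
  have i1 := conj_idem (h := h) (h' := h') ee hh'
  have i2 := conj_idem (h := h) (h' := h') i1 hh'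
  have i3 := conj_idem (h := h) (h' := h') i2 hh'
  have j1 := conj_idem (h := h) (h' := h') xx hh'
  have j2 := conj_idem (h := h) (h' := h') j1 hh'
  have j3 := conj_idem (h := h) (h' := h') j2 hh'
  have j4 := conj_idem (h := h) (h' := h') j3 hh'
  have c1 := conj_comm f2 f1 f1'
  have c2 := conj_comm c1 f1 f1'
  have c3 := conj_comm c2 f1 f1'
  have k1 := conj_comm xf f1 f1'
  have k2 := conj_comm k1 f1 f1'
  have k3 := conj_comm k2 f1 f1'
  have k4 := conj_comm k3 f1 f1'
  obtain ⟨c, hc⟩ : ∃ c : ℕ, c = 10 * (C1 * N) + 30 * N := ⟨_, rfl⟩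
  have key := hC2 b c (EE s s' h h' e) f ?_ ?_ ?_ ?_
  rotate_left
  · intro i
    fin_cases i
    · exact ae_mono ee (by omega)
    · exact ae_mono i1 (by omega)
    · exact ae_mono i2 (by omega)
    · exact ae_mono i3 (by omega)
    · exact ae_mono j4 (by omega)
  · intro i j hij
    exact ae_mono (R.orth i j hij) (by omega)
  · exact ae_mono R.cov (by omega)
  · intro i
    fin_cases i
    · exact ae_mono f2 (by omega)
    · exact ae_mono c1 (by omega)
    · exact ae_mono c2 (by omega)
    · exact ae_mono c3 (by omega)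
    · exact ae_mono k4 (by omega)
  have r1 := conj_rank' hh' f1' e
  have r2 := conj_rank' hh' f1' (h * e * h')
  have r3 := conj_rank' hh' f1' (h * (h * e * h') * h')
  have q1 := conj_rank' hh' f1' (e * g)
  have q2 := conj_rank' hh' f1' (h * (e * g) * h')
  have q3 := conj_rank' hh' f1' (h * (h * (e * g) * h') * h')
  have q4 := conj_rank' hh' f1' (h * (h * (h * (e * g) * h') * h') * h')
  have u1 := conj_rank ss' (e * f)
  have u2 := ae_rank f4
  have u3 := ae_rank (ae_symm f4)
  have v1 := conj_rank ss' (e * g * f)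
  have v2 := conj_rank ss' (s * (e * g * f) * s')
  have v3 := ae_rank f5
  have v4 := ae_rank (ae_symm f5)
  have hsum : (∑ i, (EE s s' h h' e i * f).rank) = (e * f).rank + (h * e * h' * f).rank +
      (h * (h * e * h') * h' * f).rank + (h * (h * (h * e * h') * h') * h' * f).rank +
      (h * (h * (h * (h * (e * g) * h') * h') * h') * h' * f).rank := by
    rw [Fin.sum_univ_five]
    rfl
  rw [hsum] at key
  obtain ⟨key1, key2⟩ := key
  have eC : (C2 * (10 * C1 + 30) + 5 * (5 * C1 + 30)) * 3 ^ n * d =
      C2 * c + 25 * (C1 * N) + 150 * N := by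
    rw [hc, hN]; ring
  rw [eC]
  constructor
  · omega
  · omega

end Pool.Agent.Helper49.FR
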